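import Pool.Agent.Helper29.E3.St1

/-! E3 module SMQ. -/

set_option autoImplicit false

namespace Pool.Agent.Helper13.E3

open Pool.Agent.Helper29.E3 Pool.Agent.Helper49.PC Finset
open Pool.Agent.Helper48.BK (ex th lz Vz Pz gs nd Apx AdN Sol thd)

theorem harm_le (D : ℕ) : ∑ g ∈ Icc 1 D, (1 : ℝ) / g ≤ 1 + Real.log D := by
  have h := harmonic_le_one_add_log D
  rw [harmonic_eq_sum_Icc] at h
  push_cast at h
  simpa [one_div] using h

theorem core_le (g b D : ℕ) (G : ℝ) (hg : 1 ≤ g) (hb : 1 ≤ b) :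
    1 / ((g * b : ℕ) : ℝ) ^ 2 * ((D : ℝ) ^ 2 * (g : ℝ) * (b : ℝ) ^ 2 * (G + 16) +
      16 * ((g * b : ℕ) : ℝ) * (D : ℝ) ^ 2) ≤
    (D : ℝ) ^ 2 * (1 / (g : ℝ) * G) + 32 * (D : ℝ) ^ 2 := by
  have hg' : (1 : ℝ) ≤ g := by exact_mod_cast hg
  have hb' : (1 : ℝ) ≤ b := by exact_mod_cast hb
  have hg0 : (0 : ℝ) < g := by linarith
  have hb0 : (0 : ℝ) < b := by linarith
  push_cast
  have e : 1 / ((g : ℝ) * b) ^ 2 * ((D : ℝ) ^ 2 * (g : ℝ) * (b : ℝ) ^ 2 * (G + 16) +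
      16 * ((g : ℝ) * b) * (D : ℝ) ^ 2) =
      (D : ℝ) ^ 2 * (1 / (g : ℝ) * G) + 16 * (D : ℝ) ^ 2 * (1 / g) + 16 * (D : ℝ) ^ 2 * (1 / (g * b)) := by
    field_simp
  rw [e]
  have h1 : (1 : ℝ) / g ≤ 1 := by
    rw [div_le_one hg0]
    exact hg'
  have h2 : (1 : ℝ) / (g * b) ≤ 1 := by
    rw [div_le_one (by positivity)]
    nlinarith
  have hD2 : (0 : ℝ) ≤ 16 * (D : ℝ) ^ 2 := by positivity
  have h3 := mul_le_mul_of_nonneg_left h1 hD2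
  have h4 := mul_le_mul_of_nonneg_left h2 hD2
  linarith

/-- SMQ -/
theorem hSMQ : StSMQ := by
  intro M D Q θ hD
  set G : ℕ → ℝ := fun q => gs ((M : ℝ) / q) (q * θ) ^ 2 with hGdef
  have hG0 : ∀ q, 0 ≤ G q := fun q => sq_nonneg _
  have hgpos : ∀ q : ℕ, 1 ≤ Nat.gcd D q := fun q => Nat.gcd_pos_of_pos_left _ (by omega)
  have hterm : ∀ q ∈ Icc 1 Q, 1 / (q : ℝ) ^ 2 *
      ((D : ℝ) ^ 2 * (Nat.gcd D q : ℝ) * ((q / Nat.gcd D q : ℕ) : ℝ) ^ 2 *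
        (gs ((M : ℝ) / (q / Nat.gcd D q : ℕ)) ((q / Nat.gcd D q : ℕ) * θ) ^ 2 + 16) +
      16 * q * (D : ℝ) ^ 2) ≤
      (D : ℝ) ^ 2 * (1 / (Nat.gcd D q : ℝ) * G (q / Nat.gcd D q)) + 32 * (D : ℝ) ^ 2 := by
    intro q hq
    rw [mem_Icc] at hq
    have hmul : Nat.gcd D q * (q / Nat.gcd D q) = q := Nat.mul_div_cancel' (Nat.gcd_dvd_right D q)
    have hb : 1 ≤ q / Nat.gcd D q := by
      rcases Nat.eq_zero_or_pos (q / Nat.gcd D q) with h0 | h0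
      · rw [h0, mul_zero] at hmul
        omega
      · exact h0
    have h := core_le (Nat.gcd D q) (q / Nat.gcd D q) D (G (q / Nat.gcd D q)) (hgpos q) hb
    rw [hmul] at h
    exact h
  refine (sum_le_sum hterm).trans ?_
  rw [sum_add_distrib, ← mul_sum]
  have hin : ∑ q ∈ Icc 1 Q, 1 / (Nat.gcd D q : ℝ) * G (q / Nat.gcd D q) ≤
      (1 + Real.log D) * ∑ q ∈ Icc 1 Q, G q := by
    have hinj : Set.InjOn (fun q : ℕ => (Nat.gcd D q, q / Nat.gcd D q)) (Icc 1 Q : Finset ℕ) := by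
      intro x _ y _ hxy
      have h1 : Nat.gcd D x = Nat.gcd D y := congrArg Prod.fst hxy
      have h2 : x / Nat.gcd D x = y / Nat.gcd D y := congrArg Prod.snd hxy
      have hx : Nat.gcd D x * (x / Nat.gcd D x) = x := Nat.mul_div_cancel' (Nat.gcd_dvd_right D x)
      have hy : Nat.gcd D y * (y / Nat.gcd D y) = y := Nat.mul_div_cancel' (Nat.gcd_dvd_right D y)
      rw [← hx, ← hy, h2, h1]
    have hsub : (Icc 1 Q).image (fun q : ℕ => (Nat.gcd D q, q / Nat.gcd D q)) ⊆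
        Icc 1 D ×ˢ Icc 1 Q := by
      intro p hp
      rw [mem_image] at hp
      obtain ⟨q, hq, rfl⟩ := hp
      rw [mem_Icc] at hq
      rw [mem_product, mem_Icc, mem_Icc]
      have hmul : Nat.gcd D q * (q / Nat.gcd D q) = q := Nat.mul_div_cancel' (Nat.gcd_dvd_right D q)
      have hb : 1 ≤ q / Nat.gcd D q := by
        rcases Nat.eq_zero_or_pos (q / Nat.gcd D q) with h0 | h0
        · rw [h0, mul_zero] at hmul
          omega
        · exact h0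
      exact ⟨⟨hgpos q, Nat.gcd_le_left _ (by omega)⟩, hb, (Nat.div_le_self _ _).trans hq.2⟩
    calc ∑ q ∈ Icc 1 Q, 1 / (Nat.gcd D q : ℝ) * G (q / Nat.gcd D q)
        = ∑ p ∈ (Icc 1 Q).image (fun q : ℕ => (Nat.gcd D q, q / Nat.gcd D q)),
            1 / (p.1 : ℝ) * G p.2 := by
          rw [sum_image hinj]
      _ ≤ ∑ p ∈ Icc 1 D ×ˢ Icc 1 Q, 1 / (p.1 : ℝ) * G p.2 := by
          refine sum_le_sum_of_subset_of_nonneg hsub ?_
          intro p _ _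
          exact mul_nonneg (by positivity) (hG0 _)
      _ = (∑ g ∈ Icc 1 D, 1 / (g : ℝ)) * ∑ q ∈ Icc 1 Q, G q := by
          rw [sum_product, sum_mul_sum]
      _ ≤ (1 + Real.log D) * ∑ q ∈ Icc 1 Q, G q :=
          mul_le_mul_of_nonneg_right (harm_le D) (sum_nonneg fun q _ => hG0 q)
  have hD2 : (0 : ℝ) ≤ (D : ℝ) ^ 2 := by positivity
  have h1 := mul_le_mul_of_nonneg_left hin hD2
  rw [sum_const, Nat.card_Icc, nsmul_eq_mul, Nat.add_sub_cancel]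
  have h2 : (D : ℝ) ^ 2 * ((1 + Real.log D) * ∑ q ∈ Icc 1 Q, G q) =
      (D : ℝ) ^ 2 * (1 + Real.log D) * ∑ q ∈ Icc 1 Q, G q := by ring
  rw [h2] at h1
  have h3 : (Q : ℝ) * (32 * (D : ℝ) ^ 2) = 32 * (D : ℝ) ^ 2 * Q := by ring
  rw [h3]
  linarith

end Pool.Agent.Helper13.E3
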